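import Pool.Agent.CRD.Fin
import Pool.Agent.CRD.Opt

/-!
# The sharp bound for `|a₂|` in terms of the area

`MP_0b1b3b_an`, Q1.  `c* = (3/2) (3π/2)^(1/2)`, `K_M = {M (η + η²/2) : |η| < 1}` (a cardioid; its area
is `(3π/2) M²`).  There are functions `P_M ∈ S`, `M ≥ 1`, with image in `K_M` and of the full area of
`K_M`, and the following statements hold.

(A) `c*` is the best constant of Q1.

(B) For every `A ≥ π` the maximum of `|a₂|` over the functions of `S` whose image has the area `A` is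
`((A - π)/(2π))^(1/2)` if `A ≤ 3π/2`, and `2 - c* A^(-1/2)` if `A ≥ 3π/2`.

(C) The bound `|a₂| ≤ 2 - c* A^(-1/2)` holds for every analytic `f = u + a₂ u² + ...` for which the
area `A` of the image, counted with multiplicity, is finite and which takes each value `w` with
`|w|² < 3A/(2π)` at most once.  Equality holds only for the rotations of `P_M`, `M = (2A/(3π))^(1/2)`
(`M ≥ 1`).

(D) If `M > 0` and `f` takes each value in `K_M` at most once, then
`A/(2πM³) + 2 - Re a₂ ≥ 9/(4M) + R/(2πM³)`, where `R ≥ 0` is the integral of `|η|⁻³ - 1` over the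
part of `K_M` which is not covered, plus the integral of `1 - |η|⁻³` over the part of the image
outside `K_M` (with multiplicity), `w = M (η + η²/2)`, `Re η ≥ -1`.  Moreover
`A/(2πM³) + 2 - Re a₂ = 9/(4M)` holds if and only if `M ≥ 1` and `f = P_M`.

(E) Stability.  If `a₂ = c |a₂|`, `|c| = 1`, then `(2 - |a₂|) A^(1/2) ≥ c* (1 + α²/32)` for `f ∈ S`,
where `α A` is the area of the symmetric difference of the image and the cardioid `c⁻¹ K_M` of area
`A`; and `(2 - |a₂|) A^(1/2) ≥ c* (1 + β²/8)` for `f` as in (C), where `β A` is the area of the part of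
`c⁻¹ K_M` which is not covered.

(F) The exponent `2` of `α` is optimal: there are functions in `S` with `a₂ = 1/2` and with
arbitrarily small `α > 0` such that `(2 - |a₂|) A^(1/2) ≤ c* (1 + 640000 α²)`.
-/

set_option autoImplicit false

open Complex MeasureTheory Metric Set

namespace Pool.Agent.Results.MP_0b1b3b_an.SharpArea

/-- the analytic functions `f` on the unit disc with `f 0 = 0` and `f' 0 = 1` -/
def N : Set (ℂ → ℂ) := {f | DifferentiableOn ℂ f (ball 0 1) ∧ f 0 = 0 ∧ deriv f 0 = 1}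

/-- the class `S` -/
def S : Set (ℂ → ℂ) := {f | f ∈ N ∧ InjOn f (ball 0 1)}

/-- the second coefficient -/
noncomputable def a₂ (f : ℂ → ℂ) : ℂ := deriv (deriv f) 0 / 2

/-- the area of the image of the unit disc -/
noncomputable def area (f : ℂ → ℂ) : ENNReal := volume (f '' ball 0 1)

/-- the area of the image, counted with multiplicity, is finite -/
def FiniteArea (f : ℂ → ℂ) : Prop := IntegrableOn (fun u => ‖deriv f u‖ ^ 2) (ball 0 1)

/-- the area of the image, counted with multiplicity -/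
noncomputable def marea (f : ℂ → ℂ) : ℝ := ∫ u in ball (0 : ℂ) 1, ‖deriv f u‖ ^ 2

/-- `f` takes every value in `T` at most once on the unit disc -/
def Once (f : ℂ → ℂ) (T : Set ℂ) : Prop :=
  ∀ u ∈ ball (0 : ℂ) 1, ∀ v ∈ ball (0 : ℂ) 1, f u = f v → f u ∈ T → u = v

/-- the cardioid `K_M` -/
def K (M : ℝ) : Set ℂ := (fun η : ℂ => (M : ℂ) * (η + η ^ 2 / 2)) '' ball 0 1

/-- the weight `|η|⁻³`, `η = -1 + (1 + 2w/M)^(1/2)` (principal root) -/
noncomputable def ρ (M : ℝ) (w : ℂ) : ℝ := (‖(1 + 2 * w / M) ^ (1 / 2 : ℂ) - 1‖ ^ 3)⁻¹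

/-- the remainder -/
noncomputable def R (M : ℝ) (f : ℂ → ℂ) : ℝ :=
  (∫ w in K M \ f '' ball 0 1, (ρ M w - 1)) +
    ∫ u in ball (0 : ℂ) 1 ∩ f ⁻¹' (K M)ᶜ, (1 - ρ M (f u)) * ‖deriv f u‖ ^ 2

/-- rotation -/
noncomputable def rot (c : ℂ) (f : ℂ → ℂ) (u : ℂ) : ℂ := c * f (c⁻¹ * u)

/-- the sharp constant -/
noncomputable def cs : ℝ := 3 / 2 * Real.sqrt (3 * Real.pi / 2)

/-- the maximum of `|a₂|` for the area `A` -/
noncomputable def amax (A : ℝ) : ℝ :=
  if A ≤ 3 * Real.pi / 2 then Real.sqrt ((A - Real.pi) / (2 * Real.pi)) else 2 - cs / Real.sqrt A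

/-- the parameter of the cardioid of area `A` -/
noncomputable def Mof (A : ℝ) : ℝ := Real.sqrt (2 * A / (3 * Real.pi))

open Pool.Agent.CRD in
private theorem area_eq {f : ℂ → ℂ} (hf : f ∈ S) (h : area f ≠ ⊤) :
    FiniteArea f ∧ area f = ENNReal.ofReal (Ar f) := by
  have h1 := areaU hf.1.1 hf.2
  refine ⟨h1.1.1 h, ?_⟩
  rw [h1.2]
  exact (ENNReal.ofReal_toReal h).symm

open Pool.Agent.CRD in
private theorem bound_S {f : ℂ → ℂ} (hf : f ∈ S) (h : area f ≠ ⊤) :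
    ‖a₂ f‖ ≤ 2 - cs / Real.sqrt (area f).toReal := by
  have h1 := areaU hf.1.1 hf.2
  have h2 := disc hf.1.1 hf.1.2.1 hf.1.2.2 (h1.1.1 h) (fun u hu v hv huv _ => hf.2 hu hv huv)
  rw [h1.2] at h2
  exact h2

open Pool.Agent.CRD in
private theorem P_mem {M : ℝ} (hM : 1 ≤ M) : PP M ∈ S :=
  ⟨⟨(PP_spec hM).1, (PP_spec hM).2.2.1, (PP_spec hM).2.2.2.1⟩, (PP_spec hM).2.1⟩

open Pool.Agent.CRD in
private theorem P_area {M : ℝ} (hM : 1 ≤ M) : area (PP M) = ENNReal.ofReal (3 * Real.pi / 2 * M ^ 2) := by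
  have h : area (PP M) ≠ ⊤ := ne_top_of_le_ne_top ENNReal.ofReal_ne_top (PP_vol hM)
  rw [(area_eq (P_mem hM) h).2, PP_Ar hM]

open Pool.Agent.CRD in
private theorem P_norm {M : ℝ} (hM : 1 ≤ M) : ‖a₂ (PP M)‖ = 2 - 3 / (2 * M) := by
  have h5 : (2 - 3 / (2 * (M : ℂ))) = ((2 - 3 / (2 * M) : ℝ) : ℂ) := by push_cast; ring
  have : a₂ (PP M) = 2 - 3 / (2 * M) := (PP_spec hM).2.2.2.2.1
  rw [this, h5, norm_real, Real.norm_eq_abs, abs_of_nonneg]
  have : 3 / (2 * M) ≤ 3 / 2 := by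
    apply div_le_div_of_nonneg_left (by norm_num) (by norm_num)
    linarith
  linarith

open Pool.Agent.CRD in
theorem result : ∃ P : ℝ → ℂ → ℂ,
    -- the functions `P_M`
    (∀ M : ℝ, 1 ≤ M → P M ∈ S ∧ P M '' ball 0 1 ⊆ K M ∧ area (P M) = volume (K M) ∧
      volume (K M) = ENNReal.ofReal (3 * Real.pi / 2 * M ^ 2) ∧ a₂ (P M) = 2 - 3 / (2 * M) ∧
      ∀ u ∈ ball (0 : ℂ) 1, (1 + 2 * P M u / M) * (M * (1 - u) ^ 2 + 4 * u) ^ 2 =
        (M * (1 - u) ^ 2 + 5 * u + 2 * u * P M u / M) ^ 2) ∧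
    -- (A)
    IsGreatest {c : ℝ | 0 ≤ c ∧ ∀ f ∈ S, area f ≠ ⊤ →
      ‖a₂ f‖ ≤ 2 - c / Real.sqrt (area f).toReal} cs ∧
    -- (B)
    (∀ A : ℝ, Real.pi ≤ A →
      IsGreatest {x : ℝ | ∃ f ∈ S, area f = ENNReal.ofReal A ∧ x = ‖a₂ f‖} (amax A)) ∧
    -- (C)
    (∀ f ∈ N, FiniteArea f → Once f {w | ‖w‖ ^ 2 < 3 * marea f / (2 * Real.pi)} →
      ‖a₂ f‖ ≤ 2 - cs / Real.sqrt (marea f) ∧
      (‖a₂ f‖ = 2 - cs / Real.sqrt (marea f) ↔ 1 ≤ Mof (marea f) ∧
        ∃ c : ℂ, ‖c‖ = 1 ∧ EqOn f (rot c (P (Mof (marea f)))) (ball 0 1))) ∧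
    -- (D)
    (∀ M : ℝ, 0 < M → ∀ f ∈ N, FiniteArea f → Once f (K M) →
      0 ≤ R M f ∧
      9 / (4 * M) + R M f / (2 * Real.pi * M ^ 3) ≤
        marea f / (2 * Real.pi * M ^ 3) + 2 - (a₂ f).re ∧
      (marea f / (2 * Real.pi * M ^ 3) + 2 - (a₂ f).re = 9 / (4 * M) ↔
        1 ≤ M ∧ EqOn f (P M) (ball 0 1))) ∧
    -- (E)
    (∀ f ∈ S, area f ≠ ⊤ → ∀ c : ℂ, ‖c‖ = 1 → a₂ f = c * (‖a₂ f‖ : ℝ) →
      cs * (1 + (volume.real (symmDiff (f '' ball 0 1)
        ((fun w => c⁻¹ * w) '' K (Mof (area f).toReal))) / (area f).toReal) ^ 2 / 32) ≤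
        (2 - ‖a₂ f‖) * Real.sqrt (area f).toReal) ∧
    (∀ f ∈ N, FiniteArea f → Once f {w | ‖w‖ ^ 2 < 3 * marea f / (2 * Real.pi)} →
      ∀ c : ℂ, ‖c‖ = 1 → a₂ f = c * (‖a₂ f‖ : ℝ) →
      cs * (1 + (volume.real (K (Mof (marea f)) \ rot c f '' ball 0 1) / marea f) ^ 2 / 8) ≤
        (2 - ‖a₂ f‖) * Real.sqrt (marea f)) ∧
    -- (F)
    (∀ δ : ℝ, 0 < δ → ∃ f ∈ S, area f ≠ ⊤ ∧ a₂ f = 1 / 2 ∧ ∃ α : ℝ, 0 < α ∧ α < δ ∧
      α = volume.real (symmDiff (f '' ball 0 1) (K (Mof (area f).toReal))) / (area f).toReal ∧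
      (2 - ‖a₂ f‖) * Real.sqrt (area f).toReal ≤ cs * (1 + 640000 * α ^ 2)) := by
  refine ⟨PP, ?_, ?_, ?_, ?_, ?_, ?_, ?_, ?_⟩
  · intro M hM
    refine ⟨P_mem hM, (PP_spec hM).2.2.2.2.2, ?_, vol_Cd (lt_of_lt_of_le one_pos hM),
      (PP_spec hM).2.2.2.2.1, PP_poly hM⟩
    rw [P_area hM]
    exact (vol_Cd (lt_of_lt_of_le one_pos hM)).symm
  · refine ⟨⟨cst_pos.le, fun f hf h => bound_S hf h⟩, ?_⟩
    rintro c ⟨_, hc⟩
    have h1 := hc (PP 1) (P_mem le_rfl) (by rw [P_area le_rfl]; exact ENNReal.ofReal_ne_top)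
    rw [P_norm le_rfl, P_area le_rfl] at h1
    have hpi := Real.pi_pos
    have h2 : 0 < Real.sqrt (3 * Real.pi / 2) := by positivity
    rw [ENNReal.toReal_ofReal (by positivity)] at h1
    simp only [one_pow, mul_one] at h1
    have h3 : c / Real.sqrt (3 * Real.pi / 2) ≤ 3 / 2 := by linarith
    rw [div_le_iff₀ h2] at h3
    exact h3
  · intro A hA
    have hpi := Real.pi_pos
    have hA0 : 0 < A := lt_of_lt_of_le hpi hA
    unfold amax
    split_ifs with hc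
    · set a := Real.sqrt ((A - Real.pi) / (2 * Real.pi)) with ha
      have hq : 0 ≤ (A - Real.pi) / (2 * Real.pi) := div_nonneg (by linarith) (by positivity)
      have ha0 : 0 ≤ a := Real.sqrt_nonneg _
      have ha2 : a ^ 2 = (A - Real.pi) / (2 * Real.pi) := Real.sq_sqrt hq
      have ha1 : a ≤ 1 / 2 := by
        have : (A - Real.pi) / (2 * Real.pi) ≤ 1 / 4 := by
          rw [div_le_iff₀ (by positivity)]
          linarith
        nlinarith
      have hAa : Real.pi * (1 + 2 * a ^ 2) = A := by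
        rw [ha2]
        field_simp
        ring
      constructor
      · obtain ⟨f, h1, h2, h3, h4, h5, h6, h7⟩ := quad ha0 ha1
        have hfS : f ∈ S := ⟨⟨h1, h3, h4⟩, h2⟩
        have ht : area f ≠ ⊤ := (areaU h1 h2).1.2 h6
        refine ⟨f, hfS, ?_, ?_⟩
        · rw [(area_eq hfS ht).2, h7, hAa]
        · show a = ‖deriv (deriv f) 0 / 2‖
          rw [h5, norm_real, Real.norm_eq_abs, abs_of_nonneg ha0]
      · rintro x ⟨f, hf, hfa, rfl⟩
        have ht : area f ≠ ⊤ := by rw [hfa]; exact ENNReal.ofReal_ne_top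
        have h1 := areaU hf.1.1 hf.2
        have h2 := area_lower hf.1.1 hf.1.2.2 (h1.1.1 ht)
        have h3 : Ar f = A := by
          rw [h1.2]
          show (area f).toReal = A
          rw [hfa, ENNReal.toReal_ofReal hA0.le]
        rw [h3] at h2
        apply Real.le_sqrt_of_sq_le
        rw [le_div_iff₀ (by positivity)]
        have h4 : Real.pi * (1 + 2 * ‖a₂ f‖ ^ 2) ≤ A := h2
        nlinarith
    · push Not at hc
      have hM := MM_ge_one hc.le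
      constructor
      · refine ⟨PP (MM A), P_mem hM, ?_, ?_⟩
        · rw [P_area hM, ← MM_sq hA0]
        · rw [P_norm hM, ← cst_eq hA0]
          rfl
      · rintro x ⟨f, hf, hfa, rfl⟩
        have ht : area f ≠ ⊤ := by rw [hfa]; exact ENNReal.ofReal_ne_top
        have h1 := bound_S hf ht
        rwa [hfa, ENNReal.toReal_ofReal hA0.le] at h1
  · intro f hf hA hi
    exact ⟨disc hf.1 hf.2.1 hf.2.2 hA hi, disc_eq hf.1 hf.2.1 hf.2.2 hA hi⟩
  · intro M hM f hf hA hi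
    refine ⟨Rem_nonneg hM hf.1 hf.2.1 hf.2.2, main hM hf.1 hf.2.1 hf.2.2 hA hi, ?_⟩
    constructor
    · intro he
      exact eq_unique hM hf.1 hf.2.1 hf.2.2 hA hi (le_of_eq he)
    · rintro ⟨hM1, he⟩
      have h1 := PP_eq hM1
      have h2 : marea f = Ar (PP M) := Ar_congr he
      have h3 : a₂ f = deriv (deriv (PP M)) 0 / 2 := by
        unfold a₂
        rw [a2_congr he]
      rw [h2, h3]
      exact h1
  · intro f hf ht c hc hc2
    exact stab_S hf.1.1 hf.2 hf.1.2.1 hf.1.2.2 ht hc hc2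
  · intro f hf hA hi c hc hc2
    exact stab_disc hf.1 hf.2.1 hf.2.2 hA hi hc hc2
  · intro δ hδ
    obtain ⟨f, h1, h2, h3, h4, h5, h6, x, h7, h8, h9, h10⟩ := opt_exp hδ
    exact ⟨f, ⟨⟨h1, h3, h4⟩, h2⟩, h6, h5, x, h7, h8, h9, h10⟩

end Pool.Agent.Results.MP_0b1b3b_an.SharpArea
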